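import Pool.Agent.MWPN.Stmts

/-!
# MWPN, row VIS (helper9)
-/

namespace Pool.Agent.MWPN.H9

open Pool.Agent.Helper14_MV Pool.Agent.Helper2_MV Pool.Agent.MWF Pool.Agent.MWP Pool.Agent.MWPN

theorem rtr {β : FIC} {a b c : List ℕ} (h1 : RR β a b) (h2 : RR β b c) : RR β a c :=
  β.trans h1 h2

/-- the substitution -/
def fs (n l r : ℕ) : ℕ → List ℕ := fun c =>
  if c = l then ip n 0 else if c = r then ip n 1 else if c = 0 then [2] else
    if 7 ≤ c then [c - 4] else []

/-- the inverse on letters -/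
def gi (l r a : ℕ) : ℕ := if a = 0 then l else if a = 1 then r else if a = 2 then 0 else a + 4

theorem mem_fs {n l r : ℕ} (hn : 1 ≤ n) (hl : l = 1 ∨ l = 2) (hr : r = 3 ∨ r = 4) (a c : ℕ) :
    a ∈ fs n l r c ↔ c = gi l r a := by
  unfold fs gi ip
  split_ifs <;> simp only [List.mem_replicate, List.mem_singleton, List.not_mem_nil, false_iff] <;>
    omega

theorem gi_inj {l r : ℕ} (hl : l = 1 ∨ l = 2) (hr : r = 3 ∨ r = 4) {a b : ℕ}
    (h : gi l r a = gi l r b) : a = b := by
  unfold gi at h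
  split_ifs at h <;> omega

theorem mem_flat {n l r : ℕ} (hn : 1 ≤ n) (hl : l = 1 ∨ l = 2) (hr : r = 3 ∨ r = 4) (a : ℕ)
    (w : List ℕ) : a ∈ w.flatMap (fs n l r) ↔ gi l r a ∈ w := by
  rw [List.mem_flatMap]
  constructor
  · rintro ⟨c, hc, h⟩
    rw [mem_fs hn hl hr] at h
    rw [← h]
    exact hc
  · intro h
    exact ⟨_, h, (mem_fs hn hl hr a _).mpr rfl⟩

theorem pair_flat {n l r : ℕ} (hn : 1 ≤ n) (hl : l = 1 ∨ l = 2) (hr : r = 3 ∨ r = 4) {a b : ℕ}
    (hab : a ≠ b) (w : List ℕ) :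
    [a, b].Sublist (w.flatMap (fs n l r)) ↔ [gi l r a, gi l r b].Sublist w := by
  rw [pair_flatMap]
  constructor
  · rintro (⟨c, -, h⟩ | ⟨c, d, h, h1, h2⟩)
    · obtain ⟨h1, h2⟩ := pair_mem h
      rw [mem_fs hn hl hr] at h1 h2
      exact absurd (gi_inj hl hr (h1.symm.trans h2)) hab
    · rw [mem_fs hn hl hr] at h1 h2
      rw [← h1, ← h2]
      exact h
  · intro h
    exact Or.inr ⟨_, _, h, (mem_fs hn hl hr a _).mpr rfl, (mem_fs hn hl hr b _).mpr rfl⟩

theorem count_flat {n l r : ℕ} (hl : l = 1 ∨ l = 2) (hr : r = 3 ∨ r = 4) (a : ℕ) (w : List ℕ) :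
    (w.flatMap (fs n l r)).count a ≡ (if a ≤ 1 then 0 else w.count (gi l r a)) [MOD n] := by
  induction w with
  | nil => simp [Nat.ModEq]
  | cons c w ih =>
    rw [List.flatMap_cons, List.count_append]
    have h1 : (fs n l r c).count a ≡ (if a ≤ 1 then 0 else if c = gi l r a then 1 else 0)
        [MOD n] := by
      unfold fs gi ip
      by_cases h2 : c = l
      · rw [if_pos h2, List.count_replicate]
        have h3 : (if a ≤ 1 then 0 else if c = (if a = 0 then l else if a = 1 then r else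
            if a = 2 then 0 else a + 4) then 1 else 0) = 0 := by
          split_ifs <;> omega
        rw [h3]
        by_cases h4 : (0 : ℕ) = a
        · rw [if_pos (by simpa using h4), Nat.modEq_zero_iff_dvd]
          exact ⟨2, by ring⟩
        · rw [if_neg (by simpa using h4)]
      · rw [if_neg h2]
        by_cases h2' : c = r
        · rw [if_pos h2', List.count_replicate]
          have h3 : (if a ≤ 1 then 0 else if c = (if a = 0 then l else if a = 1 then r else
              if a = 2 then 0 else a + 4) then 1 else 0) = 0 := by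
            split_ifs <;> omega
          rw [h3]
          by_cases h4 : (1 : ℕ) = a
          · rw [if_pos (by simpa using h4), Nat.modEq_zero_iff_dvd]
            exact ⟨2, by ring⟩
          · rw [if_neg (by simpa using h4)]
        · rw [if_neg h2']
          have h5 : List.count a (if c = 0 then [2] else if 7 ≤ c then [c - 4] else []) =
              (if a ≤ 1 then 0 else if c = (if a = 0 then l else if a = 1 then r else
              if a = 2 then 0 else a + 4) then 1 else 0) := by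
            split_ifs <;> simp [List.count_cons] <;> omega
          rw [h5]
    refine (h1.add ih).trans ?_
    by_cases ha : a ≤ 1
    · simp [ha, Nat.ModEq]
    · rw [if_neg ha, if_neg ha, if_neg ha, List.count_cons]
      have : (if c = gi l r a then 1 else 0) = (if (c == gi l r a) = true then 1 else 0) := by
        simp
      rw [this, add_comm]

theorem gen {n : ℕ} {β : FIC} (hβ : BtN n β) {l r : ℕ} (hl : l = 1 ∨ l = 2) (hr : r = 3 ∨ r = 4)
    {w w' : List ℕ} (h0 : 0 ∉ w) (h0' : 0 ∉ w')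
    (hm : ∀ c, (c = l ∨ c = r ∨ 7 ≤ c) → (c ∈ w ↔ c ∈ w'))
    (ht : ∀ c, 7 ≤ c → c ∈ w → [c, c].Sublist w) (ht' : ∀ c, 7 ≤ c → c ∈ w' → [c, c].Sublist w')
    (hc : ∀ c, 7 ≤ c → w.count c ≡ w'.count c [MOD n])
    (hp : ∀ c d, (c = l ∨ c = r ∨ 7 ≤ c) → (d = l ∨ d = r ∨ 7 ≤ d) → c ≠ d →
      ([c, d].Sublist w ↔ [c, d].Sublist w')) :
    RR β (w.flatMap (fs n l r)) (w'.flatMap (fs n l r)) := by
  have hn := hβ.pos
  have hrel : ∀ a, a ≠ 2 → (gi l r a = l ∨ gi l r a = r ∨ 7 ≤ gi l r a) := by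
    intro a ha
    unfold gi
    split_ifs <;> omega
  have h2 : gi l r 2 = 0 := rfl
  have hMul : ∀ w : List ℕ, 0 ∉ w → (∀ c, 7 ≤ c → c ∈ w → [c, c].Sublist w) →
      Mul (w.flatMap (fs n l r)) := by
    intro w h0 ht a ha
    rw [mem_flat hn hl hr] at ha
    rw [pair_flatMap]
    by_cases h7 : 7 ≤ gi l r a
    · exact Or.inr ⟨_, _, ht _ h7 ha, (mem_fs hn hl hr a _).mpr rfl,
        (mem_fs hn hl hr a _).mpr rfl⟩
    · left
      refine ⟨_, ha, ?_⟩
      have ha2 : a ≠ 2 := by
        rintro rfl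
        exact h0 ha
      have ha3 : a = 0 ∨ a = 1 := by
        unfold gi at h7
        split_ifs at h7 <;> omega
      obtain ⟨m, hm⟩ : ∃ m, 2 * n = m + 2 := ⟨2 * n - 2, by omega⟩
      have h3 : ∀ x : ℕ, [x, x].Sublist (ip n x) := by
        intro x
        unfold ip
        rw [hm, List.replicate_succ, List.replicate_succ]
        exact ((List.nil_sublist _).cons_cons x).cons_cons x
      rcases ha3 with rfl | rfl
      · have : fs n l r (gi l r 0) = ip n 0 := by simp [fs, gi]
        rw [this]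
        exact h3 0
      · have : fs n l r (gi l r 1) = ip n 1 := by
          have h4 : gi l r 1 = r := rfl
          rw [h4]
          unfold fs
          rw [if_neg (by omega), if_pos rfl]
        rw [this]
        exact h3 1
  refine hβ.loc _ _ (hMul w h0 ht) (hMul w' h0' ht') (fun a => ?_) (fun a => ?_)
    (fun a b hab => ?_)
  · rw [mem_flat hn hl hr, mem_flat hn hl hr]
    by_cases ha : a = 2
    · rw [ha, h2]
      exact ⟨fun h => absurd h h0, fun h => absurd h h0'⟩
    · exact hm _ (hrel a ha)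
  · refine (count_flat hl hr a w).trans (Nat.ModEq.trans ?_ (count_flat hl hr a w').symm)
    by_cases ha : a ≤ 1
    · rw [if_pos ha, if_pos ha]
    · rw [if_neg ha, if_neg ha]
      by_cases ha2 : a = 2
      · rw [ha2, h2, List.count_eq_zero_of_not_mem h0, List.count_eq_zero_of_not_mem h0']
      · refine hc _ ?_
        unfold gi
        split_ifs <;> omega
  · rw [pair_flat hn hl hr hab, pair_flat hn hl hr hab]
    by_cases ha : a = 2
    · rw [ha, h2]
      exact ⟨fun h => absurd (pair_mem h).1 h0, fun h => absurd (pair_mem h).1 h0'⟩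
    · by_cases hb : b = 2
      · rw [hb, h2]
        exact ⟨fun h => absurd (pair_mem h).2 h0, fun h => absurd (pair_mem h).2 h0'⟩
      · exact hp _ _ (hrel a ha) (hrel b hb) fun h => hab (gi_inj hl hr h)

/-- two letters only -/
theorem sec {n : ℕ} {β : FIC} (hβ : BtN n β) {l r : ℕ} (hl : l = 1 ∨ l = 2) (hr : r = 3 ∨ r = 4)
    {w w' : List ℕ} (h0 : ∀ c ∈ w, 0 < c ∧ c < 7) (h0' : ∀ c ∈ w', 0 < c ∧ c < 7)
    (hlw : l ∈ w) (hlw' : l ∈ w') (hrw : r ∈ w) (hrw' : r ∈ w')
    (p1 : [l, r].Sublist w ↔ [l, r].Sublist w') (p2 : [r, l].Sublist w ↔ [r, l].Sublist w') :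
    RR β (w.flatMap (fs n l r)) (w'.flatMap (fs n l r)) := by
  refine gen hβ hl hr (fun h => absurd (h0 0 h).1 (lt_irrefl _))
    (fun h => absurd (h0' 0 h).1 (lt_irrefl _)) ?_ ?_ ?_ ?_ ?_
  · rintro c (rfl | rfl | h)
    · exact ⟨fun _ => hlw', fun _ => hlw⟩
    · exact ⟨fun _ => hrw', fun _ => hrw⟩
    · exact ⟨fun h1 => absurd (h0 c h1).2 (by omega), fun h1 => absurd (h0' c h1).2 (by omega)⟩
  · exact fun c hc h => absurd (h0 c h).2 (by omega)
  · exact fun c hc h => absurd (h0' c h).2 (by omega)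
  · intro c hc
    rw [List.count_eq_zero_of_not_mem fun h => absurd (h0 c h).2 (by omega),
      List.count_eq_zero_of_not_mem fun h => absurd (h0' c h).2 (by omega)]
  · intro c d hc hd hcd
    have h7 : ∀ c d, 7 ≤ c ∨ 7 ≤ d → ([c, d].Sublist w ↔ [c, d].Sublist w') := by
      intro c d h
      constructor
      · intro h1
        have h2 := pair_mem h1
        have h3 := h0 c h2.1
        have h4 := h0 d h2.2
        omega
      · intro h1
        have h2 := pair_mem h1
        have h3 := h0' c h2.1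
        have h4 := h0' d h2.2
        omega
    rcases hc with rfl | rfl | hc
    · rcases hd with rfl | rfl | hd
      · exact absurd rfl hcd
      · exact p1
      · exact h7 _ _ (Or.inr hd)
    · rcases hd with rfl | rfl | hd
      · exact p2
      · exact absurd rfl hcd
      · exact h7 _ _ (Or.inr hd)
    · exact h7 _ _ (Or.inl hc)

theorem mem_c0 {v : List ℕ} {c : ℕ} :
    c ∈ c0 v ↔ (1 ≤ c ∧ c ≤ 6) ∨ c ∈ v.map (fun c => c + 7) := by
  unfold c0 V7
  simp only [List.mem_append, List.mem_cons, List.not_mem_nil, or_false]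
  constructor
  · rintro ((h | h) | h)
    · left; omega
    · right; exact h
    · left; omega
  · rintro (h | h)
    · have : c = 1 ∨ c = 2 ∨ c = 3 ∨ c = 4 ∨ c = 5 ∨ c = 6 := by omega
      rcases this with rfl | rfl | rfl | rfl | rfl | rfl <;> simp
    · left; right; exact h

theorem mem_m {v : List ℕ} {c : ℕ} (h : c ∈ v.map (fun c => c + 7)) : 7 ≤ c := by
  rw [List.mem_map] at h
  obtain ⟨a, _, rfl⟩ := h
  omega

theorem zero_c0 (v : List ℕ) : 0 ∉ c0 v := by
  rw [mem_c0]
  rintro (h | h)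
  · omega
  · have := mem_m h
    omega

theorem c0_flat (n : ℕ) {l r : ℕ} (hl : l = 1 ∨ l = 2) (hr : r = 3 ∨ r = 4) (v : List ℕ) :
    (c0 v).flatMap (fs n l r) = ip n 0 ++ v.map (fun c => c + 3) ++ ip n 1 := by
  have hV : (V7 v).flatMap (fs n l r) = v.map (fun c => c + 3) := by
    unfold V7
    induction v with
    | nil => rfl
    | cons a v ih =>
      rw [List.map_cons, List.flatMap_cons, ih, List.map_cons]
      have : fs n l r (a + 7) = [a + 3] := by
        unfold fs
        rw [if_neg (by omega), if_neg (by omega), if_neg (by omega), if_pos (by omega)]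
        congr 1
      rw [this]
      rfl
  unfold c0
  rw [List.flatMap_append, List.flatMap_append, hV]
  rcases hl with rfl | rfl <;> rcases hr with rfl | rfl <;> simp [fs]

theorem mul_c0 {v : List ℕ} (hv : Mul v) {c : ℕ} (h7 : 7 ≤ c) (hc : c ∈ c0 v) :
    [c, c].Sublist (c0 v) := by
  rw [mem_c0] at hc
  rcases hc with hc | hc
  · omega
  · obtain ⟨a, ha, rfl⟩ := List.mem_map.mp hc
    have h1 := (hv a ha).map (fun c => c + 7)
    unfold c0 V7
    rw [pair_append, pair_append]
    exact Or.inl (Or.inr (Or.inr h1))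

theorem first {n : ℕ} {β : FIC} (hβ : BtN n β) {v w0 w1 : List ℕ} (hv : Mul v)
    (hB : Bas n v w0 w1) {l r : ℕ} (hl : l = 1 ∨ l = 2) (hr : r = 3 ∨ r = 4) :
    RR β (w0.flatMap (fs n l r)) (ip n 0 ++ v.map (fun c => c + 3) ++ ip n 1) := by
  rw [← c0_flat n hl hr v]
  refine gen hβ hl hr (fun h => zero_c0 v ((hB.m0 0).mp h)) (zero_c0 v) (fun c _ => hB.m0 c)
    (fun c hc h => hB.tw c (by omega) h) (fun c hc h => mul_c0 hv hc h)
    (fun c hc => hB.rs c (by omega)) (fun c d _ _ hcd => hB.pt c d hcd)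

/-- the normal form of the word -/
theorem nf {n : ℕ} {β : FIC} (hβ : BtN n β) {v w0 w1 : List ℕ} (hv : Mul v) (hB : Bas n v w0 w1)
    {l r : ℕ} (hl : l = 1 ∨ l = 2) (hr : r = 3 ∨ r = 4) (e : List ℕ)
    (he : RR β (w1.flatMap (fs n l r)) e) :
    RR β ((w0 ++ 0 :: w1).flatMap (fs n l r))
      (ip n 0 ++ v.map (fun c => c + 3) ++ ip n 1 ++ 2 :: e) := by
  rw [List.flatMap_append, List.flatMap_cons]
  have h0 : fs n l r 0 = [2] := by
    unfold fs
    rw [if_neg (by omega), if_neg (by omega), if_pos rfl]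
  rw [h0]
  exact (first hβ hv hB hl hr).append ((RR.refl (β := β) [2]).append he)

/-- multiplication behind the simple letter -/
theorem ins {n : ℕ} {β : FIC} {v a b : List ℕ} (x : ℕ)
    (ha : ∀ c ∈ a, c = 0 ∨ c = 1) (hb : ∀ c ∈ b, c = 0 ∨ c = 1)
    (h : RR β (ip n 0 ++ v.map (fun c => c + 3) ++ ip n 1 ++ 2 :: a)
      (ip n 0 ++ v.map (fun c => c + 3) ++ ip n 1 ++ 2 :: b)) :
    RR β (ip n 0 ++ v.map (fun c => c + 3) ++ ip n 1 ++ 2 :: (ip n x ++ a))
      (ip n 0 ++ v.map (fun c => c + 3) ++ ip n 1 ++ 2 :: (ip n x ++ b)) := by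
  have h1 := h.sub (fun c => if c = 2 then 2 :: ip n x else [c])
  have fixl : ∀ l : List ℕ, 2 ∉ l →
      l.flatMap (fun c => if c = 2 then 2 :: ip n x else [c]) = l := by
    intro l hl
    induction l with
    | nil => rfl
    | cons a l ih =>
      rw [List.flatMap_cons, ih (fun e => hl (List.mem_cons_of_mem _ e)),
        if_neg (fun e => hl (by simp [e]))]
      rfl
  have hU : 2 ∉ ip n 0 ++ v.map (fun c => c + 3) ++ ip n 1 := by
    unfold ip
    simp only [List.mem_append, List.mem_map, List.mem_replicate, not_or, not_exists, not_and]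
    exact ⟨⟨fun _ => by omega, fun a _ => by omega⟩, fun _ => by omega⟩
  have ha2 : 2 ∉ a := fun e => by rcases ha 2 e with h | h <;> omega
  have hb2 : 2 ∉ b := fun e => by rcases hb 2 e with h | h <;> omega
  have key : ∀ U a : List ℕ, 2 ∉ U → 2 ∉ a →
      (U ++ 2 :: a).flatMap (fun c => if c = 2 then 2 :: ip n x else [c]) =
        U ++ 2 :: (ip n x ++ a) := by
    intro U a hU ha
    rw [List.flatMap_append, List.flatMap_cons, fixl _ hU, fixl _ ha, if_pos rfl]
    rfl
  rw [key _ _ hU ha2, key _ _ hU hb2] at h1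
  exact h1

theorem letters {n : ℕ} {l r : ℕ} (hn : 1 ≤ n) (hl : l = 1 ∨ l = 2) (hr : r = 3 ∨ r = 4)
    {e : List ℕ} (he : ∀ c ∈ e, c = l ∨ c = r) : ∀ c ∈ e.flatMap (fs n l r), c = 0 ∨ c = 1 := by
  intro c hc
  rw [mem_flat hn hl hr] at hc
  have := he _ hc
  unfold gi at this
  split_ifs at this <;> omega

theorem vis : VisStmt := by
  intro n β hβ v w0 w1 w0' w1' hv hB hB' hR l r hl hr
  have hn := hβ.pos
  have hRf := hR.sub (fs n l r)
  have hw : ∀ w : List ℕ, (∀ c, c ∈ w ↔ (1 ≤ c ∧ c ≤ 4)) →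
      (∀ c ∈ w, 0 < c ∧ c < 7) ∧ l ∈ w ∧ r ∈ w := by
    intro w h
    refine ⟨fun c hc => ?_, (h l).mpr (by omega), (h r).mpr (by omega)⟩
    have := (h c).mp hc
    omega
  obtain ⟨a1, a2, a3⟩ := hw w1 hB.m1
  obtain ⟨b1, b2, b3⟩ := hw w1' hB'.m1
  -- the short words
  have el : fs n l r l = ip n 0 := by simp [fs]
  have er : fs n l r r = ip n 1 := by
    unfold fs
    rw [if_neg (by omega), if_pos rfl]
  have s2 : [l, r].flatMap (fs n l r) = ip n 0 ++ ip n 1 := by simp [el, er]
  have s2' : [r, l].flatMap (fs n l r) = ip n 1 ++ ip n 0 := by simp [el, er]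
  have s3 : [l, r, l].flatMap (fs n l r) = ip n 0 ++ ip n 1 ++ ip n 0 := by simp [el, er]
  have s3' : [r, l, r].flatMap (fs n l r) = ip n 1 ++ (ip n 0 ++ ip n 1) := by simp [el, er]
  have s4 : [l, l, r].flatMap (fs n l r) = ip n 0 ++ (ip n 0 ++ ip n 1) := by simp [el, er]
  have s4' : [r, r, l].flatMap (fs n l r) = ip n 1 ++ (ip n 1 ++ ip n 0) := by simp [el, er]
  have hlr : l ≠ r := by omega
  have q1 : [l, r].Sublist [l, r] := List.Sublist.refl _
  have q2 : ¬ [r, l].Sublist [l, r] := by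
    rcases hl with rfl | rfl <;> rcases hr with rfl | rfl <;> decide
  have q3 : ¬ [l, r].Sublist [r, l] := by
    rcases hl with rfl | rfl <;> rcases hr with rfl | rfl <;> decide
  have q4 : [l, r].Sublist [l, r, l] := by
    rcases hl with rfl | rfl <;> rcases hr with rfl | rfl <;> decide
  have q5 : [r, l].Sublist [l, r, l] := by
    rcases hl with rfl | rfl <;> rcases hr with rfl | rfl <;> decide
  have sm : ∀ e : List ℕ, (∀ c ∈ e, c = l ∨ c = r) → ∀ c ∈ e, 0 < c ∧ c < 7 := by
    intro e he c hc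
    have := he c hc
    omega
  have m2 : ∀ c ∈ [l, r], c = l ∨ c = r := by simp
  have m2' : ∀ c ∈ [r, l], c = l ∨ c = r := by simp
  have m3 : ∀ c ∈ [l, r, l], c = l ∨ c = r := by simp
  have m3' : ∀ c ∈ [r, l, r], c = l ∨ c = r := by simp
  have m4 : ∀ c ∈ [l, l, r], c = l ∨ c = r := by simp
  have m4' : ∀ c ∈ [r, r, l], c = l ∨ c = r := by simp
  -- the second block
  have second : ∀ w : List ℕ, (∀ c ∈ w, 0 < c ∧ c < 7) → l ∈ w → r ∈ w →
      (¬ [r, l].Sublist w → RR β (w.flatMap (fs n l r)) (ip n 0 ++ ip n 1)) ∧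
      (¬ [l, r].Sublist w → RR β (w.flatMap (fs n l r)) (ip n 1 ++ ip n 0)) ∧
      ([l, r].Sublist w → [r, l].Sublist w →
        RR β (w.flatMap (fs n l r)) (ip n 0 ++ ip n 1 ++ ip n 0)) := by
    intro w h1 h2 h3
    refine ⟨fun h => ?_, fun h => ?_, fun h h' => ?_⟩
    · rw [← s2]
      refine sec hβ hl hr h1 (sm _ m2) h2 (by simp) h3 (by simp) ?_ ?_
      · exact ⟨fun _ => q1, fun _ => (pair_total h2 h3 hlr).resolve_right h⟩
      · exact ⟨fun h4 => absurd h4 h, fun h4 => absurd h4 q2⟩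
    · rw [← s2']
      refine sec hβ hl hr h1 (sm _ m2') h2 (by simp) h3 (by simp) ?_ ?_
      · exact ⟨fun h4 => absurd h4 h, fun h4 => absurd h4 q3⟩
      · exact ⟨fun _ => List.Sublist.refl _, fun _ => (pair_total h2 h3 hlr).resolve_left h⟩
    · rw [← s3]
      refine sec hβ hl hr h1 (sm _ m3) h2 (by simp) h3 (by simp) ?_ ?_
      · exact ⟨fun _ => q4, fun _ => h⟩
      · exact ⟨fun _ => q5, fun _ => h'⟩
  have main : ∀ e e' : List ℕ, RR β (w1.flatMap (fs n l r)) e →
      RR β (w1'.flatMap (fs n l r)) e' →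
      RR β (ip n 0 ++ v.map (fun c => c + 3) ++ ip n 1 ++ 2 :: e)
        (ip n 0 ++ v.map (fun c => c + 3) ++ ip n 1 ++ 2 :: e') := by
    intro e e' he he'
    exact rtr (nf hβ hv hB hl hr e he).symm (rtr hRf (nf hβ hv hB' hl hr e' he'))
  have o1 := second w1 a1 a2 a3
  have o2 := second w1' b1 b2 b3
  have z2 : ∀ c ∈ ip n 0 ++ ip n 1, c = 0 ∨ c = 1 := by
    rw [← s2]
    exact letters hn hl hr m2
  have z2' : ∀ c ∈ ip n 1 ++ ip n 0, c = 0 ∨ c = 1 := by
    rw [← s2']
    exact letters hn hl hr m2'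
  have ctx : ∀ a b : List ℕ, RR β a b →
      RR β (ip n 0 ++ v.map (fun c => c + 3) ++ ip n 1 ++ 2 :: a)
        (ip n 0 ++ v.map (fun c => c + 3) ++ ip n 1 ++ 2 :: b) := fun a b h =>
    (RR.refl _).append ((RR.refl (β := β) [2]).append h)
  constructor
  · intro hn1 hy
    have hh := o1.1 hy
    by_cases hb : [l, r].Sublist w1'
    · exact main _ _ hh (o2.2.2 hb hn1)
    · have h3 := main _ _ hh (o2.2.1 hb)
      have h4 := ins 0 z2 z2' h3
      have h5 : RR β (ip n 0 ++ (ip n 0 ++ ip n 1)) (ip n 0 ++ ip n 1) := by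
        rw [← s4, ← s2]
        refine sec hβ hl hr (sm _ m4) (sm _ m2) (by simp) (by simp) (by simp) (by simp) ?_ ?_
        · rcases hl with rfl | rfl <;> rcases hr with rfl | rfl <;> decide
        · rcases hl with rfl | rfl <;> rcases hr with rfl | rfl <;> decide
      have h6 := rtr (ctx _ _ h5).symm h4
      unfold PV
      rw [List.append_assoc (ip n 0) (ip n 1) (ip n 0)]
      exact h6
  · intro hn1 hy
    have hh := o1.2.1 hy
    by_cases hb : [r, l].Sublist w1'
    · exact main _ _ hh (o2.2.2 hn1 hb)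
    · have h3 := main _ _ hh (o2.1 hb)
      have h4 := ins 1 z2' z2 h3
      have h5 : RR β (ip n 1 ++ (ip n 1 ++ ip n 0)) (ip n 1 ++ ip n 0) := by
        rw [← s4', ← s2']
        refine sec hβ hl hr (sm _ m4') (sm _ m2') (by simp) (by simp) (by simp) (by simp) ?_ ?_
        · rcases hl with rfl | rfl <;> rcases hr with rfl | rfl <;> decide
        · rcases hl with rfl | rfl <;> rcases hr with rfl | rfl <;> decide
      have h7 : RR β (ip n 1 ++ (ip n 0 ++ ip n 1)) (ip n 0 ++ ip n 1 ++ ip n 0) := by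
        rw [← s3', ← s3]
        refine sec hβ hl hr (sm _ m3') (sm _ m3) (by simp) (by simp) (by simp) (by simp) ?_ ?_
        · rcases hl with rfl | rfl <;> rcases hr with rfl | rfl <;> decide
        · rcases hl with rfl | rfl <;> rcases hr with rfl | rfl <;> decide
      exact rtr (ctx _ _ h5).symm (rtr h4 (ctx _ _ h7))

end Pool.Agent.MWPN.H9
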